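import Pool.Agent.PIRing.NonUnital

/-!
Every finitely generated associative ring (with or without unit) that satisfies some identity with a
coefficient equal to one satisfies all identities of the ring of `n` by `n` integer matrices for
some `n`.

The free associative ring without unit on `x_0, x_1, ...` is `MonoidAlgebra ℤ (FreeSemigroup ℕ)`; the
value of `f` at `r` is `MonoidAlgebra.liftMagma ℤ (FreeSemigroup.lift r) f`.
-/

set_option autoImplicit false

namespace Pool.Agent.Results.MP_c252cb_al.NonunitalPI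

theorem result (R : Type) [NonUnitalRing R]
    (hfg : ∃ s : Finset R, NonUnitalSubring.closure (s : Set R) = ⊤)
    (hpi : ∃ f : MonoidAlgebra ℤ (FreeSemigroup ℕ),
      (∃ w : FreeSemigroup ℕ, f.coeff w = 1) ∧
      ∀ r : ℕ → R, MonoidAlgebra.liftMagma ℤ (FreeSemigroup.lift r) f = 0) :
    ∃ n : ℕ, 1 ≤ n ∧ ∀ g : MonoidAlgebra ℤ (FreeSemigroup ℕ),
      (∀ v : ℕ → Matrix (Fin n) (Fin n) ℤ,
        MonoidAlgebra.liftMagma ℤ (FreeSemigroup.lift v) g = 0) →
      ∀ r : ℕ → R, MonoidAlgebra.liftMagma ℤ (FreeSemigroup.lift r) g = 0 :=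
  Pool.Agent.PIG.general R hfg hpi

end Pool.Agent.Results.MP_c252cb_al.NonunitalPI
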